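import Pool.Agent.W886.AM.Stm0

/-!
# The verifier of the Arthur-Merlin game
-/

set_option autoImplicit false

namespace Pool.Agent.W274.AMAMV

open Pool.Agent.NPC Pool.Agent.H622R2
open Pool.Agent.H620R2.Gauge
open Pool.Agent.W900.RB
open Pool.Agent.W900.SP (poly_u1 poly_u2)
open Pool.Agent.W886.AM

/-- the length of the input -/
def nz (z : List Bool) : ℕ := (unpair (unpair z).2).2.length

/-- the questions -/
def Qv (z : List Bool) : List (List Bool) :=
  (List.range (2 * nz z)).map (fun j => mk (nz z) j) ++
    (List.range (nz z * (3 * nz z))).map (fun i => bl (nz z)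
        ((unpair z).1.take (i / (3 * nz z))) (unpair (unpair z).2).1 (i % (3 * nz z)))

theorem upoly_nz {α : Type} [TEnc α] {f : α → List Bool} (hf : Poly f) :
    UPoly (fun a => nz (f a)) := UPoly.length (poly_u2 (poly_u2 hf))

theorem poly_Qv : Poly Qv := by
  have hn : UPoly (fun z : List Bool => nz z) := upoly_nz Poly.id
  have hn2 : UPoly (fun y : List Bool × ℕ => nz y.1) := upoly_nz (Poly.fst Poly.id)
  have h3n2 : UPoly (fun y : List Bool × ℕ => 3 * nz y.1) := UPoly.mul (UPoly.const 3) hn2
  have hreg : ∀ {f : List Bool × ℕ → List Bool}, Poly f →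
      Poly (fun y : List Bool × ℕ => reg (nz y.1) (f y)) := by
    intro f hf
    unfold reg
    exact Poly.append (poly_rep hn2) (Poly.cons (NPC.Poly.const false) hf)
  unfold Qv
  refine Poly.append ?_ ?_
  · have h2 : UPoly (fun y : List Bool × ℕ => 2 * nz y.1) := UPoly.mul (UPoly.const 2) hn2
    have h4 : UPoly (fun y : List Bool × ℕ => min y.2 (2 * nz y.1)) :=
      UPoly.of_le (Poly.min (Poly.snd Poly.id) h2.toPoly) h2 (fun y => min_le_right _ _)
    have h5 : Poly (fun z : List Bool => (List.range (2 * nz z)).map
        (fun j => mk (nz z) (min j (2 * nz z)))) := by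
      refine NPC.Poly.map (F := fun (z : List Bool) j => mk (nz z) (min j (2 * nz z)))
        (UPoly.mul (UPoly.const 2) hn).range ?_
      unfold mk
      exact hreg (Poly.cons (NPC.Poly.const false) (poly_rep h4))
    refine h5.congr fun z => ?_
    apply List.map_congr_left
    intro r hr
    rw [List.mem_range] at hr
    rw [min_eq_left hr.le]
  · have hq : UPoly (fun y : List Bool × ℕ => min (y.2 / (3 * nz y.1)) (nz y.1)) :=
      UPoly.of_le (Poly.min (Poly.div (Poly.snd Poly.id) h3n2.toPoly) hn2.toPoly) hn2
        (fun y => min_le_right _ _)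
    have hr : UPoly (fun y : List Bool × ℕ => min (y.2 % (3 * nz y.1)) (3 * nz y.1)) :=
      UPoly.of_le (Poly.min (Poly.mod (Poly.snd Poly.id) h3n2.toPoly) h3n2.toPoly) h3n2
        (fun y => min_le_right _ _)
    have h5 : Poly (fun z : List Bool => (List.range (nz z * (3 * nz z))).map
        (fun i => bl (nz z) ((unpair z).1.take (min (i / (3 * nz z)) (nz z)))
          (unpair (unpair z).2).1 (min (i % (3 * nz z)) (3 * nz z)))) := by
      refine NPC.Poly.map (F := fun (z : List Bool) i => bl (nz z)
          ((unpair z).1.take (min (i / (3 * nz z)) (nz z)))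
          (unpair (unpair z).2).1 (min (i % (3 * nz z)) (3 * nz z)))
        (UPoly.mul hn (UPoly.mul (UPoly.const 3) hn)).range ?_
      unfold bl
      exact hreg (Poly.cons (NPC.Poly.const true) (Poly.append
        (R1.poly_take (poly_u1 (Poly.fst Poly.id)) hq)
        (Poly.append (poly_u1 (poly_u2 (Poly.fst Poly.id))) (poly_rep hr))))
    refine h5.congr fun z => ?_
    apply List.map_congr_left
    intro i hi
    rw [List.mem_range] at hi
    have hn0 : 0 < nz z := by
      rcases Nat.eq_zero_or_pos (nz z) with h | h
      · rw [h] at hi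
        simp at hi
      · exact h
    have h1 : i / (3 * nz z) < nz z := Nat.div_lt_of_lt_mul (by rw [Nat.mul_comm]; exact hi)
    have h2 : i % (3 * nz z) < 3 * nz z := Nat.mod_lt _ (by omega)
    rw [min_eq_left h1.le, min_eq_left h2.le]

/-- the answers -/
theorem Qv_getD (A : Oracle) (w u x : List Bool) (j : ℕ) :
    (j < 2 * x.length → ((Qv (pairBits w (pairBits u x))).map A).getD j false =
      A (mk x.length j)) ∧
    (∀ r, r < x.length → j < 3 * x.length →
      ((Qv (pairBits w (pairBits u x))).map A).getD
        (2 * x.length + (r * (3 * x.length) + j)) false = A (bl x.length (w.take r) u j)) := by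
  unfold Qv nz
  simp only [unpair_pairBits, List.map_append, List.map_map]
  refine ⟨fun h => ?_, fun r hr h => ?_⟩
  · rw [List.getD_append _ _ _ _ (by simpa using h)]
    rw [List.getD_eq_getElem _ _ (by simpa using h)]
    simp
  · have h1 : r * (3 * x.length) + j < x.length * (3 * x.length) := by
      have h2 : (r + 1) * (3 * x.length) ≤ x.length * (3 * x.length) :=
        Nat.mul_le_mul_right _ hr
      rw [Nat.add_mul, Nat.one_mul] at h2
      omega
    have h3 : (r * (3 * x.length) + j) / (3 * x.length) = r := by
      rw [Nat.add_comm, Nat.add_mul_div_right _ _ (by omega), Nat.div_eq_of_lt h, Nat.zero_add]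
    have h4 : (r * (3 * x.length) + j) % (3 * x.length) = j := by
      rw [Nat.add_comm, Nat.add_mul_mod_self_right, Nat.mod_eq_of_lt h]
    rw [List.getD_append_right _ _ _ _ (by simp)]
    have h5 : 2 * x.length + (r * (3 * x.length) + j) - (List.map (A ∘ fun j => mk x.length j)
        (List.range (2 * x.length))).length = r * (3 * x.length) + j := by
      rw [List.length_map, List.length_range, Nat.add_sub_cancel_left]
    rw [h5, List.getD_eq_getElem _ _ (by simpa using h1), List.getElem_map, List.getElem_range]
    simp only [Function.comp_apply]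
    rw [h3, h4]

/-- the decision -/
def Hv (N₀ : ℕ) (y : List Bool × List Bool) : List Bool :=
  if nz y.1 < N₀ then []
  else if (unpair (unpair y.1).2).2.all (fun b => b) = true then
    (if (List.range (nz y.1)).all (fun j => y.2.getD j false) = true then
      (if ra (nz y.1) y.2 < nz y.1 then
        (if (unpair (unpair y.1).2).1.length = nz y.1 then
          (if (List.range (3 * nz y.1)).all (fun j => y.2.getD
            (2 * nz y.1 + (ra (nz y.1) y.2 * (3 * nz y.1) + j)) false) = true then
            [true] else []) else []) else []) else []) else []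

theorem poly_ra {α : Type} [TEnc α] {f : α → List Bool × List Bool} (hf : Poly f) :
    Poly (fun a => ra (nz (f a).1) (f a).2) := by
  have hra : Poly (fun y : List Bool × List Bool => ra (nz y.1) y.2) := by
    unfold ra
    refine Poly.length (Poly.filter (p := fun (_ : List Bool × List Bool) (b : Bool) => b) ?_
      (Poly.snd Poly.id))
    refine NPC.Poly.map (F := fun (y : List Bool × List Bool) j =>
      y.2.getD (nz y.1 + j) false) (upoly_nz (Poly.fst Poly.id)).range ?_
    exact Poly.getD (Poly.snd (Poly.fst Poly.id)) (Poly.add (upoly_nz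
      (Poly.fst (Poly.fst Poly.id))).toPoly (Poly.snd Poly.id)) (NPC.Poly.const false)
  exact hra.comp hf

theorem poly_Hv (N₀ : ℕ) : Poly (Hv N₀) := by
  have hx : Poly (fun y : List Bool × List Bool => (unpair (unpair y.1).2).2) :=
    poly_u2 (poly_u2 (Poly.fst Poly.id))
  have hu : Poly (fun y : List Bool × List Bool => (unpair (unpair y.1).2).1) :=
    poly_u1 (poly_u2 (Poly.fst Poly.id))
  have hn : UPoly (fun y : List Bool × List Bool => nz y.1) := upoly_nz (Poly.fst Poly.id)
  have hn2 : UPoly (fun y : (List Bool × List Bool) × ℕ => nz y.1.1) :=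
    upoly_nz (Poly.fst (Poly.fst Poly.id))
  have hra : Poly (fun y : List Bool × List Bool => ra (nz y.1) y.2) := poly_ra Poly.id
  have hra2 : Poly (fun y : (List Bool × List Bool) × ℕ => ra (nz y.1.1) y.1.2) :=
    poly_ra (f := fun y : (List Bool × List Bool) × ℕ => y.1) (Poly.fst Poly.id)
  have h3 : UPoly (fun y : List Bool × List Bool => 3 * nz y.1) := UPoly.mul (UPoly.const 3) hn
  unfold Hv
  refine Poly.ite (Poly.decide_lt hn.toPoly (NPC.Poly.const _)) (NPC.Poly.const _) ?_
  refine Poly.ite (Poly.decide_bool (Poly.all (p := fun (_ : List Bool × List Bool) b => b) hx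
    (Poly.snd Poly.id))) ?_ (NPC.Poly.const _)
  refine Poly.ite (Poly.decide_bool (Poly.all (p := fun (y : List Bool × List Bool) j =>
    y.2.getD j false) hn.range (Poly.getD (Poly.snd (Poly.fst Poly.id)) (Poly.snd Poly.id)
      (NPC.Poly.const false)))) ?_ (NPC.Poly.const _)
  refine Poly.ite (Poly.decide_lt hra hn.toPoly) ?_ (NPC.Poly.const _)
  refine Poly.ite (Poly.decide_eq (Poly.length hu) hn.toPoly) ?_ (NPC.Poly.const _)
  refine Poly.ite (Poly.decide_bool (Poly.all (p := fun (y : List Bool × List Bool) j =>
    y.2.getD (2 * nz y.1 + (ra (nz y.1) y.2 * (3 * nz y.1) + j)) false) h3.range ?_))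
    (NPC.Poly.const _) (NPC.Poly.const _)
  refine Poly.getD (Poly.snd (Poly.fst Poly.id)) ?_ (NPC.Poly.const false)
  refine Poly.add (Poly.mul (NPC.Poly.const 2) hn2.toPoly) (Poly.add (Poly.mul hra2
    (Poly.mul (NPC.Poly.const 3) hn2.toPoly)) (Poly.snd Poly.id))

/-- the verifier -/
def Vv (A : Oracle) (N₀ : ℕ) (z : List Bool) : List Bool := Hv N₀ (z, (Qv z).map A)

theorem Vv_fp (A : Oracle) (N₀ : ℕ) : IsFP A (Vv A N₀) := IsFP.tt poly_Qv (poly_Hv N₀)

theorem ra_eq (A : Oracle) (w u x : List Bool) :
    ra x.length ((Qv (pairBits w (pairBits u x))).map A) = rr A x.length := by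
  unfold ra rr
  congr 2
  apply List.map_congr_left
  intro j hj
  rw [List.mem_range] at hj
  exact (Qv_getD A w u x (x.length + j)).1 (by omega)

theorem amv : S_AMV := by
  intro A N₀
  refine ⟨Vv A N₀, Vv_fp A N₀, fun w y x => ?_⟩
  have hall : x.all (fun b => b) = true ↔ x = List.replicate x.length true := by
    rw [List.all_eq_true, List.eq_replicate_iff]
    exact ⟨fun h => ⟨rfl, h⟩, fun h => h.2⟩
  have hm : (List.range x.length).all (fun j =>
      ((Qv (pairBits w (pairBits y x))).map A).getD j false) = true ↔ Marked A x.length := by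
    rw [List.all_eq_true]
    unfold Marked
    constructor
    · intro h j hj
      rw [← (Qv_getD A w y x j).1 (by omega)]
      exact h j (List.mem_range.2 hj)
    · intro h j hj
      rw [List.mem_range] at hj
      rw [(Qv_getD A w y x j).1 (by omega)]
      exact h j hj
  have ha : rr A x.length < x.length → ((List.range (3 * x.length)).all (fun j =>
      ((Qv (pairBits w (pairBits y x))).map A).getD
        (2 * x.length + (rr A x.length * (3 * x.length) + j)) false) = true ↔
      ∀ j < 3 * x.length, A (bl x.length (w.take (rr A x.length)) y j) = true) := by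
    intro hr
    rw [List.all_eq_true]
    constructor
    · intro h j hj
      rw [← (Qv_getD A w y x j).2 _ hr hj]
      exact h j (List.mem_range.2 hj)
    · intro h j hj
      rw [List.mem_range] at hj
      rw [(Qv_getD A w y x j).2 _ hr hj]
      exact h j hj
  have hz : nz (pairBits w (pairBits y x)) = x.length := by
    unfold nz
    simp only [unpair_pairBits]
  unfold Vv Hv Ans
  simp only [hz]
  simp only [unpair_pairBits, ra_eq]
  constructor
  · intro h
    split_ifs at h with h1 h2 h3 h4 h5 h6
    exact ⟨by omega, hall.1 h2, hm.1 h3, h4, h5, (ha h4).1 h6⟩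
  · rintro ⟨h1, h2, h3, h4, h5, h6⟩
    rw [if_neg (by omega), if_pos (hall.2 h2), if_pos (hm.2 h3), if_pos h4, if_pos h5,
      if_pos ((ha h4).2 h6)]

end Pool.Agent.W274.AMAMV
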